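import Pool.Agent.Helper84.AV.Residue2

set_option autoImplicit false

namespace Pool.Agent.Results.MP_753a9c_nt.ResiduesEveryScale

open NumberField IsDedekindDomain Matrix MeasureTheory Pool.Agent.Helper4.ST Pool.Agent.Helper84.AV
open scoped MatrixGroups

open Classical in
/-- **Joint laws of `a_i(p)` and `p mod q` for all but a bounded number of primes `q`, at every
scale.**
Let `D` be the `ℓ`-adic data of an abelian variety of dimension `g` over `ℚ` and let `i ≤ 2 g`,
`X ≥ 2` and `ε > 0`.  For all but at most `117000 (2g choose i) ^ 3 / ε ^ 2` primes `q ≤ X ^ (1/6)`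
the following holds: for all functions `f` on the line with Lipschitz constant `1` and `|f 0| ≤ 1`,
all subgroups `H` of `(ℤ/qℤ)ˣ`, of index `m`, and all cosets `b H`,
`|m ∑_{p ≤ X, p mod q ∈ b H} f (a_i(p)) - ∑_{p ≤ X, p ≠ q} f (a_i(p))| ≤ √m ε X / log X`,
where `p` runs over the primes of good reduction.  The condition on `p mod q` says that the
Frobenius of `p` in the subfield of `ℚ(ζ_q)` fixed by `H` is the class of `b`. -/
theorem result (g : ℕ) (D : Datum g) (i : ℕ) (hi : i ≤ 2 * g) (X : ℕ) (hX : 2 ≤ X) (ε : ℝ)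
    (hε : 0 < ε) :
    ∃ E : Finset ℕ, (E.card : ℝ) ≤ 117000 * ((2 * g).choose i : ℝ) ^ 3 / ε ^ 2 ∧
      ∀ q : ℕ, q.Prime → q ^ 6 ≤ X → q ∉ E →
        ∀ f : ℝ → ℝ, LipschitzWith 1 f → |f 0| ≤ 1 →
          ∀ (H : Subgroup (ZMod q)ˣ) (b : (ZMod q)ˣ),
            |(H.index : ℝ) *
                ∑ p ∈ (primesUpTo X).filter (fun p => Good D p ∧
                  ∃ h ∈ H, ((p : ℕ) : ZMod q) = ((b * h : (ZMod q)ˣ) : ZMod q)), f (a D i p) -
              ∑ p ∈ (primesUpTo X).filter (fun p => Good D p ∧ (p : ℕ) ≠ q), f (a D i p)| ≤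
              Real.sqrt H.index * (ε * (X / Real.log X)) := by
  have hX1 : (1 : ℝ) < X := by exact_mod_cast (by omega : 1 < X)
  have hlog : 0 < Real.log X := Real.log_pos hX1
  set Z : ℝ := X / Real.log X with hZ
  have hZ0 : 0 < Z := by positivity
  -- the property for one prime
  set P : ℕ → Prop := fun q => ∀ f : ℝ → ℝ, LipschitzWith 1 f → |f 0| ≤ 1 →
          ∀ (H : Subgroup (ZMod q)ˣ) (b : (ZMod q)ˣ),
            |(H.index : ℝ) *
                ∑ p ∈ (primesUpTo X).filter (fun p => Good D p ∧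
                  ∃ h ∈ H, ((p : ℕ) : ZMod q) = ((b * h : (ZMod q)ˣ) : ZMod q)), f (a D i p) -
              ∑ p ∈ (primesUpTo X).filter (fun p => Good D p ∧ (p : ℕ) ≠ q), f (a D i p)| ≤
              Real.sqrt H.index * (ε * Z) with hP
  set E : Finset ℕ := (Finset.range (X + 1)).filter (fun q => q.Prime ∧ q ^ 6 ≤ X ∧ ¬ P q) with hE
  refine ⟨E, ?_, ?_⟩
  · -- a bad function for every exceptional prime
    have hbad : ∀ q : ℕ, ∃ f : ℝ → ℝ, LipschitzWith 1 f ∧ |f 0| ≤ 1 ∧ (q ∈ E →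
        (ε * Z) ^ 2 < ∑ χ ∈ np q, ‖∑ p ∈ (primesUpTo X).filter (Good D),
          χ ((p : ℕ) : ZMod q) * (f (a D i p) : ℂ)‖ ^ 2) := by
      intro q
      by_cases hq : q ∈ E
      · have hq' := (Finset.mem_filter.1 hq).2
        obtain ⟨hqp, _, hnP⟩ := hq'
        rw [hP] at hnP
        push Not at hnP
        obtain ⟨f, hf, hf0, H, b, hlt⟩ := hnP
        refine ⟨f, hf, hf0, fun _ => ?_⟩
        by_contra hle
        rw [not_lt] at hle
        have := coset_bound_prime X (Good D) (fun p => f (a D i p)) q hqp (ε * Z) (by positivity)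
          hle H b
        exact absurd this (not_le.2 hlt)
      · exact ⟨fun _ => 0, (LipschitzWith.const 0).weaken zero_le_one, by simp, fun h => absurd h hq⟩
    choose f hf hf0 hfbad using hbad
    have hC1 : 1 ≤ (2 * g).choose i := Nat.choose_pos hi
    have h1 := sup_scale X hX (E.sigma np) (by
        rintro ⟨q, χ⟩ ht
        rw [Finset.mem_sigma] at ht
        obtain ⟨hq, hχ⟩ := ht
        have hq' := (Finset.mem_filter.1 hq).2
        have hNZ : NeZero q := ⟨hq'.1.ne_zero⟩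
        refine ⟨hq'.1.one_le, hq'.2.1, ?_⟩
        have h2 : np q = Pool.Agent.Helper7.ST.nonprin q := by
          unfold np
          rw [dif_neg hq'.1.ne_zero]
        simp only [h2] at hχ
        exact Pool.Agent.Helper7.ST.primitive_of_prime hq'.1 (Pool.Agent.Helper7.ST.mem_nonprin.1 hχ))
      (Good D) (a D i) ((2 * g).choose i) hC1 (fun p hp => abs_a_le D hp i hi)
      (fun t => f t.1) (fun t _ => hf t.1) (fun t _ => hf0 t.1)
    rw [Finset.sum_sigma] at h1
    have h2 : (E.card : ℝ) * (ε * Z) ^ 2 ≤ ∑ q ∈ E, ∑ χ ∈ np q,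
        ‖∑ p ∈ (primesUpTo X).filter (Good D),
          χ ((p : ℕ) : ZMod q) * (f q (a D i p) : ℂ)‖ ^ 2 := by
      rw [← nsmul_eq_mul, ← Finset.sum_const]
      exact Finset.sum_le_sum fun q hq => (hfbad q hq).le
    have h3 : (E.card : ℝ) * ε ^ 2 * Z ^ 2 ≤ 117000 * ((2 * g).choose i : ℝ) ^ 3 * Z ^ 2 := by
      calc (E.card : ℝ) * ε ^ 2 * Z ^ 2 = (E.card : ℝ) * (ε * Z) ^ 2 := by ring
        _ ≤ _ := h2.trans h1
    have h4 := le_of_mul_le_mul_right h3 (by positivity)
    rw [le_div_iff₀ (by positivity)]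
    exact h4
  · intro q hq hqX hqE
    by_contra h
    apply hqE
    rw [hE, Finset.mem_filter, Finset.mem_range]
    refine ⟨?_, hq, hqX, h⟩
    have : q ≤ q ^ 6 := Nat.le_self_pow (by norm_num) q
    omega

end Pool.Agent.Results.MP_753a9c_nt.ResiduesEveryScale
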