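import Pool.Agent.Helper84.AV.Twist

set_option autoImplicit false

namespace Pool.Agent.Results.MP_753a9c_nt.TwistsEveryScale

open NumberField IsDedekindDomain Matrix MeasureTheory Pool.Agent.Helper4.ST Pool.Agent.Helper84.AV
open scoped MatrixGroups

open Classical in
/-- **A maximal Bessel inequality for the odd part of the generalized Sato-Tate law of the
quadratic twists, at every scale.**
Let `D` be the `ℓ`-adic data of an abelian variety of dimension `g` over `ℚ`, with Sato-Tate group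
`U` and Haar probability measure `μ`, and let `i` be odd.  Let `(χ_s)` be any finite family of
distinct primitive real characters, and for each `s` let `f_s` be an odd function on the line with
Lipschitz constant `1`.  Then all twists `D ⊗ χ_s` have the Sato-Tate group `U`, and for all `X ≥ 2`
`∑_s |∑_{p ≤ X} (f_s (a_i(p)) - ∫ f_s (Φ_i(u)) dμ(u))| ^ 2 ≤
117000 (2g choose i) ^ 3 (X / log X) ^ 2`,
where the outer sum is over all `s` for which the conductor of `χ_s` is at most `X ^ (1/6)`, the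
`a_i(p)` are those of the twist `D ⊗ χ_s` and `p` runs over its primes of good reduction. -/
theorem result (g : ℕ) (D : Datum g) (ℓ : ℕ) [Fact ℓ.Prime] (τ : ℚ_[ℓ] →+* ℂ)
    (U : Subgroup (GL (Fin (2 * g)) ℂ)) [MeasurableSpace U] [BorelSpace U] (μ : Measure U)
    [μ.IsHaarMeasure] [IsProbabilityMeasure μ] (hU : D.IsSatoTateGroup ℓ τ U)
    (i : ℕ) (hi : Odd i) (hi2 : i ≤ 2 * g)
    (ι : Type) [Fintype ι] (q : ι → ℕ) [∀ s, NeZero (q s)]
    (χ : ∀ s, DirichletCharacter ℤ (q s)) (hprim : ∀ s, (χ s).IsPrimitive)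
    (hinj : Function.Injective fun s => (⟨q s, χ s⟩ : Σ q : ℕ, DirichletCharacter ℤ q))
    (f : ι → ℝ → ℝ) (hf : ∀ s, LipschitzWith 1 (f s)) (hodd : ∀ s t, f s (-t) = -f s t)
    (X : ℕ) (hX : 2 ≤ X) :
    (∀ s, (D.twist (χ s)).IsSatoTateGroup ℓ τ U) ∧
    ∑ s with q s ^ 6 ≤ X, (∑ p ∈ (primesUpTo X).filter (Good (D.twist (χ s))),
        (f s (a (D.twist (χ s)) i p) - ∫ u : U, f s (Phi g i u) ∂μ)) ^ 2 ≤
      117000 * ((2 * g).choose i : ℝ) ^ 3 * (X / Real.log X) ^ 2 := by
  refine ⟨fun s => twist_group' D ℓ τ hU (χ s), ?_⟩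
  have hneg := neg_one_mem D ℓ τ hU
  have hint : ∀ s, ∫ u : U, f s (Phi g i u) ∂μ = 0 := fun s =>
    integral_Phi hneg μ i hi hi2 (f s) (hodd s)
  simp only [hint, sub_zero]
  simp only [fun s => sum_twist D (χ s) i hi hi2 (f s) (hodd s) X]
  -- the complex characters
  set c : ι → (Σ q : ℕ, DirichletCharacter ℂ q) := fun s => toCSigma ⟨q s, χ s⟩ with hc
  have hcinj : Function.Injective c := toCSigma_injective.comp hinj
  set T : Finset (Σ q : ℕ, DirichletCharacter ℂ q) :=
    (Finset.univ.filter (fun s => q s ^ 6 ≤ X)).map ⟨c, hcinj⟩ with hT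
  set F : (Σ q : ℕ, DirichletCharacter ℂ q) → ℝ → ℝ := Function.extend c f (fun _ _ => 0) with hF
  have hFc : ∀ s, F (c s) = f s := fun s => hcinj.extend_apply f _ s
  have hC1 : 1 ≤ (2 * g).choose i := Nat.choose_pos hi2
  have hf0 : ∀ s, f s 0 = 0 := by
    intro s
    have := hodd s 0
    rw [neg_zero] at this
    linarith
  have h1 := sup_scale X hX T (by
      intro t ht
      rw [hT, Finset.mem_map] at ht
      obtain ⟨s, hs, rfl⟩ := ht
      rw [Finset.mem_filter] at hs
      show 1 ≤ q s ∧ q s ^ 6 ≤ X ∧ (toC (χ s)).IsPrimitive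
      exact ⟨Nat.one_le_iff_ne_zero.2 (NeZero.ne (q s)), hs.2, toC_primitive (hprim s)⟩)
    (Good D) (a D i) ((2 * g).choose i) hC1 (fun p hp => abs_a_le D hp i hi2) F
    (by
      intro t ht
      rw [hT, Finset.mem_map] at ht
      obtain ⟨s, hs, rfl⟩ := ht
      show LipschitzWith 1 (F (c s))
      rw [hFc]
      exact hf s)
    (by
      intro t ht
      rw [hT, Finset.mem_map] at ht
      obtain ⟨s, hs, rfl⟩ := ht
      show |F (c s) 0| ≤ 1
      rw [hFc, hf0]
      simp)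
  refine le_trans (le_of_eq ?_) h1
  rw [hT, Finset.sum_map]
  refine Finset.sum_congr rfl fun s _ => ?_
  show _ = ‖∑ p ∈ (primesUpTo X).filter (Good D),
    (c s).2 ((p : ℕ) : ZMod (c s).1) * (F (c s) (a D i p) : ℂ)‖ ^ 2
  rw [hFc]
  have h2 : ∑ p ∈ (primesUpTo X).filter (Good D),
      (c s).2 ((p : ℕ) : ZMod (c s).1) * (f s (a D i p) : ℂ) =
      ((∑ p ∈ (primesUpTo X).filter (Good D),
        ((χ s ((p : ℕ) : ZMod (q s)) : ℤ) : ℝ) * f s (a D i p) : ℝ) : ℂ) := by
    rw [Complex.ofReal_sum]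
    refine Finset.sum_congr rfl fun p _ => ?_
    show ((χ s ((p : ℕ) : ZMod (q s)) : ℤ) : ℂ) * (f s (a D i p) : ℂ) = _
    push_cast
    ring
  rw [h2, Complex.norm_real, Real.norm_eq_abs, sq_abs]

end Pool.Agent.Results.MP_753a9c_nt.TwistsEveryScale
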